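import Pool.Agent.helper17.GB.Wreath

set_option autoImplicit false

/-!
Primitivity of the product action.
-/

namespace Pool.Agent.helper17.GB

open Equiv

universe u v w

/-- transitive, primitive, and every point stabilizer fixes only its point -/
structure PQ {X : Type u} (G : Subgroup (Perm X)) : Prop where
  trans : ∀ x y, ∃ g ∈ G, g x = y
  prim : ∀ B : Set X, (∀ g ∈ G, (∃ x ∈ B, g x ∈ B) → ∀ x ∈ B, g x ∈ B) →
    (∃ x ∈ B, ∃ y ∈ B, x ≠ y) → ∀ x, x ∈ B
  fixp : ∀ x y, x ≠ y → ∃ g ∈ G, g x = x ∧ g y ≠ y

/-- `PQ` implies primitivity in the sense of Mathlib -/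
theorem PQ.isPreprimitive {X : Type u} {G : Subgroup (Perm X)} (h : PQ G) :
    MulAction.IsPreprimitive G X := by
  have hT : MulAction.IsPretransitive G X := by
    refine ⟨fun x y => ?_⟩
    obtain ⟨g, hg, hgx⟩ := h.trans x y
    exact ⟨⟨g, hg⟩, hgx⟩
  refine { isTrivialBlock_of_isBlock := ?_ }
  intro B hB
  by_cases hsub : B.Subsingleton
  · exact Or.inl hsub
  · right
    rw [Set.not_subsingleton_iff] at hsub
    obtain ⟨x, hx, y, hy, hxy⟩ := hsub
    rw [Set.eq_univ_iff_forall]
    refine h.prim B ?_ ⟨x, hx, y, hy, hxy⟩
    rintro g hg ⟨x, hx, hgx⟩ z hz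
    have := MulAction.isBlock_iff_smul_eq_or_disjoint.1 hB ⟨g, hg⟩
    rcases this with h1 | h1
    · rw [← h1]
      exact ⟨z, hz, rfl⟩
    · exfalso
      rw [Set.disjoint_left] at h1
      exact h1 ⟨x, hx, rfl⟩ hgx

section
variable {X : Type u} {ι : Type v}

open Classical in
/-- act by `g` at the coordinate `j` -/
noncomputable def cperm (j : ι) (g : Perm X) : Perm (ι → X) :=
  wperm (fun i => if i = j then g else 1) 1

theorem cperm_mem {G : Subgroup (Perm X)} (j : ι) {g : Perm X} (hg : g ∈ G) :
    cperm j g ∈ Wr G ι := by
  refine wperm_mem fun i => ?_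
  split_ifs
  · exact hg
  · exact G.one_mem

theorem cperm_self (j : ι) (g : Perm X) (w : ι → X) : cperm j g w j = g (w j) := by
  simp only [cperm, wperm_apply, if_true]
  rfl

theorem cperm_ne (j : ι) (g : Perm X) (w : ι → X) {i : ι} (h : i ≠ j) :
    cperm j g w i = w i := by
  simp only [cperm, wperm_apply, h, if_false]
  rfl

theorem cperm_update [DecidableEq ι] (j : ι) (g : Perm X) (w : ι → X) (a : X) :
    cperm j g (Function.update w j a) = Function.update w j (g a) := by
  ext i
  by_cases h : i = j
  · subst h
    rw [cperm_self, Function.update_self, Function.update_self]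
  · rw [cperm_ne _ _ _ h, Function.update_of_ne h, Function.update_of_ne h]

end

theorem PQ.wr {X : Type u} {G : Subgroup (Perm X)} (hG : PQ G) (ι : Type v) [Finite ι] :
    PQ (Wr G ι) := by
  classical
  refine ⟨?_, ?_, ?_⟩
  · intro x y
    choose f hf hfx using fun i => hG.trans (x i) (y i)
    refine ⟨wperm f 1, wperm_mem hf, ?_⟩
    ext i
    exact hfx i
  · intro B hB
    rintro ⟨x, hx, y, hy, hxy⟩
    obtain ⟨j, hj⟩ := Function.ne_iff.1 hxy
    obtain ⟨g, hg, hgx, hgy⟩ := hG.fixp _ _ hj
    have hπx : cperm j g x = x := by
      ext i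
      by_cases h : i = j
      · subst h
        rw [cperm_self, hgx]
      · rw [cperm_ne _ _ _ h]
    have hy' : cperm j g y ∈ B := hB _ (cperm_mem j hg) ⟨x, hx, by rw [hπx]; exact hx⟩ y hy
    have hy'' : cperm j g y = Function.update y j (g (y j)) := by
      conv_lhs => rw [← Function.update_eq_self j y]
      rw [cperm_update]
    have hA : ∀ a, Function.update y j a ∈ B := by
      refine hG.prim {a | Function.update y j a ∈ B} ?_ ⟨y j, ?_, g (y j), ?_, hgy.symm⟩
      · rintro g' hg' ⟨a, ha, hga⟩ b hb
        change Function.update y j (g' b) ∈ B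
        rw [← cperm_update]
        refine hB _ (cperm_mem j hg') ⟨_, ha, ?_⟩ _ hb
        rw [cperm_update]
        exact hga
      · change Function.update y j (y j) ∈ B
        rw [Function.update_eq_self]
        exact hy
      · change Function.update y j (g (y j)) ∈ B
        rw [← hy'']
        exact hy'
    have hBB : ∀ w ∈ B, ∀ i a, Function.update w i a ∈ B := by
      intro w hw i a
      set σ : Perm ι := Equiv.swap j i with hσ
      choose f hf hfx using fun l => hG.trans (y (σ.symm l)) (w l)
      have h1 : wperm f σ y = w := by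
        ext l
        exact hfx l
      have h2 : wperm f σ (Function.update y j ((f i).symm a)) = Function.update w i a := by
        ext l
        rw [wperm_apply]
        by_cases h : l = i
        · subst h
          have : σ.symm l = j := by simp [hσ]
          rw [this, Function.update_self, Function.update_self]
          simp
        · have : σ.symm l ≠ j := by
            intro hcon
            apply h
            rw [Equiv.symm_apply_eq] at hcon
            rw [hcon, hσ]
            simp
          rw [Function.update_of_ne this, Function.update_of_ne h]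
          exact hfx l
      rw [← h2]
      refine hB _ (wperm_mem hf) ⟨y, hy, by rw [h1]; exact hw⟩ _ (hA _)
    intro z
    cases nonempty_fintype ι
    have hC : ∀ S : Finset ι, (fun i => if i ∈ S then z i else y i) ∈ B := by
      intro S
      induction S using Finset.induction_on with
      | empty => simpa using hy
      | insert a S haS ih =>
        have : (fun i => if i ∈ insert a S then z i else y i) =
            Function.update (fun i => if i ∈ S then z i else y i) a (z a) := by
          ext i
          by_cases h : i = a
          · subst h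
            simp
          · rw [Function.update_of_ne h]
            simp [h]
        rw [this]
        exact hBB _ ih _ _
    simpa using hC Finset.univ
  · intro x y hxy
    obtain ⟨j, hj⟩ := Function.ne_iff.1 hxy
    obtain ⟨g, hg, hgx, hgy⟩ := hG.fixp _ _ hj
    refine ⟨cperm j g, cperm_mem j hg, ?_, ?_⟩
    · ext i
      by_cases h : i = j
      · subst h
        rw [cperm_self, hgx]
      · rw [cperm_ne _ _ _ h]
    · intro hcon
      have := congrFun hcon j
      rw [cperm_self] at this
      exact hgy this

/-- the symmetric group on three points -/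
theorem PQ.base : PQ (⊤ : Subgroup (Perm (Fin 3))) := by
  refine ⟨?_, ?_, ?_⟩
  · intro x y
    exact ⟨Equiv.swap x y, Subgroup.mem_top _, Equiv.swap_apply_left x y⟩
  · rintro B hB ⟨x, hx, y, hy, hxy⟩ z
    by_contra hz
    have hzx : z ≠ x := fun h => hz (h ▸ hx)
    have hzy : z ≠ y := fun h => hz (h ▸ hy)
    have := hB (Equiv.swap y z) (Subgroup.mem_top _)
      ⟨x, hx, by rw [Equiv.swap_apply_of_ne_of_ne hxy hzx.symm]; exact hx⟩ y hy
    rw [Equiv.swap_apply_left] at this
    exact hz this
  · intro x y hxy
    have : ∃ z : Fin 3, z ≠ x ∧ z ≠ y := by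
      revert x y
      decide
    obtain ⟨z, hzx, hzy⟩ := this
    refine ⟨Equiv.swap y z, Subgroup.mem_top _, ?_, ?_⟩
    · rw [Equiv.swap_apply_of_ne_of_ne hxy hzx.symm]
    · rw [Equiv.swap_apply_left]
      exact hzy

end Pool.Agent.helper17.GB
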