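import Pool.Agent.helper17.GB.Level
import Pool.Agent.helper17.GB.Prim

set_option autoImplicit false

/-!
The tower of iterated wreath products.
-/

namespace Pool.Agent.helper17.GB

open Equiv

universe u v w

section Lemmas

variable {X : Type u}

theorem fx_Wr_const (G : Subgroup (Perm X)) (ι : Type v) (x0 : X) :
    fx (Wr G ι) (fun _ => x0) = Wr (fx G x0) ι := by
  ext π
  constructor
  · rintro ⟨⟨f, σ, hf, rfl⟩, hfix⟩
    exact ⟨f, σ, fun i => ⟨hf i, congrFun hfix i⟩, rfl⟩
  · rintro ⟨f, σ, hf, rfl⟩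
    refine ⟨⟨f, σ, fun i => (hf i).1, rfl⟩, ?_⟩
    ext i
    exact (hf i).2

theorem fx_Wr_fixed (H : Subgroup (Perm X)) (ι : Type v) (x0 : X) (hx0 : ∀ g ∈ H, g x0 = x0) :
    fx (Wr H ι) (fun _ => x0) = Wr H ι := by
  ext π
  constructor
  · intro h
    exact h.1
  · rintro ⟨f, σ, hf, rfl⟩
    refine ⟨⟨f, σ, hf, rfl⟩, ?_⟩
    ext i
    exact hx0 _ (hf i)

theorem mem_orb_of_mlt (H : Subgroup (Perm X)) {ι : Type v} [Finite ι] (y z : ι → X)
    (h : ∀ O, mlt H y O = mlt H z O) : y ∈ orb (Wr H ι) z := by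
  classical
  cases nonempty_fintype ι
  have e : ∀ O, Nonempty ({i // col H (y i) = O} ≃ {i // col H (z i) = O}) := by
    intro O
    have := h O
    unfold mlt at this
    rw [Nat.card_eq_fintype_card, Nat.card_eq_fintype_card] at this
    exact ⟨Fintype.equivOfCardEq this⟩
  let τ : ι ≃ ι := ((Equiv.sigmaFiberEquiv (fun i => col H (y i))).symm.trans
    (Equiv.sigmaCongrRight fun O => (e O).some)).trans
    (Equiv.sigmaFiberEquiv (fun i => col H (z i)))
  have hτ : ∀ i, col H (z (τ i)) = col H (y i) := by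
    intro i
    exact ((e (col H (y i))).some ⟨i, rfl⟩).2
  have hmem : ∀ i, y i ∈ orb H (z (τ i)) := fun i => (col_eq H).1 (hτ i).symm
  choose f hf hfz using hmem
  refine ⟨wperm f τ.symm, wperm_mem hf, ?_⟩
  ext i
  exact hfz i

theorem mlt_le (H : Subgroup (Perm X)) {ι : Type v} [Fintype ι] (y : ι → X)
    (O : MulAction.orbitRel.Quotient H X) : mlt H y O ≤ Fintype.card ι := by
  classical
  unfold mlt
  rw [Nat.card_eq_fintype_card]
  exact Fintype.card_subtype_le _

/-- number of orbits of a group -/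
noncomputable def nOrb (H : Subgroup (Perm X)) : ℕ := Nat.card (MulAction.orbitRel.Quotient H X)

theorem nOrb_Wr [Finite X] (H : Subgroup (Perm X)) (ι : Type v) [Fintype ι] :
    nOrb (Wr H ι) ≤ (Fintype.card ι + 1) ^ nOrb H := by
  classical
  have inst : Fintype (MulAction.orbitRel.Quotient H X) := Fintype.ofFinite _
  have h1 : Nat.card (MulAction.orbitRel.Quotient H X → Fin (Fintype.card ι + 1)) =
      (Fintype.card ι + 1) ^ nOrb H := by
    rw [Nat.card_fun, Nat.card_eq_fintype_card, Fintype.card_fin, nOrb]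
  rw [← h1]
  refine Nat.card_le_card_of_injective
    (fun O P => (⟨mlt H O.out P, Nat.lt_succ_of_le (mlt_le H _ _)⟩ : Fin (Fintype.card ι + 1))) ?_
  intro O O' h
  have h2 : ∀ P, mlt H O.out P = mlt H O'.out P := by
    intro P
    have := congrFun h P
    simpa using this
  have h3 := mem_orb_of_mlt H _ _ h2
  rw [← col_eq] at h3
  have e1 : col (Wr H ι) O.out = O := Quotient.out_eq O
  have e2 : col (Wr H ι) O'.out = O' := Quotient.out_eq O'
  rwa [e1, e2] at h3

theorem exists_big_orb [Fintype X] (H : Subgroup (Perm X)) (x0 : X) (hX : 2 ≤ Fintype.card X)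
    (n : ℕ) : ∃ z : Fin n → X, (∀ i, z i ≠ x0) ∧
      (Fintype.card X - 1) ^ n ≤ (orb (Wr H (Fin n)) z).ncard * (n + 1) ^ nOrb H := by
  classical
  have inst : Fintype (MulAction.orbitRel.Quotient H X) := Fintype.ofFinite _
  let S : Finset (Fin n → X) := Fintype.piFinset fun _ => Finset.univ.erase x0
  have hS : S.card = (Fintype.card X - 1) ^ n := by
    simp [S, Fintype.card_piFinset]
  have hSmem : ∀ z, z ∈ S ↔ ∀ i, z i ≠ x0 := by
    intro z
    simp [S]
  have hSne : S.Nonempty := by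
    rw [← Finset.card_pos, hS]
    exact pow_pos (by omega) _
  obtain ⟨z, hz, hzmax⟩ := S.exists_max_image (fun z => (orb (Wr H (Fin n)) z).ncard) hSne
  refine ⟨z, (hSmem z).1 hz, ?_⟩
  have key := Finset.card_le_mul_card_image_of_maps_to (s := S)
    (t := (Finset.univ : Finset (MulAction.orbitRel.Quotient H X → Fin (n + 1))))
    (f := fun z O => (⟨mlt H z O, Nat.lt_succ_of_le ((mlt_le H z O).trans (by simp))⟩ :
      Fin (n + 1)))
    (fun _ _ => Finset.mem_univ _) ((orb (Wr H (Fin n)) z).ncard) (by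
      intro F _
      by_cases hne : (S.filter fun z' => (fun O => (⟨mlt H z' O,
        Nat.lt_succ_of_le ((mlt_le H z' O).trans (by simp))⟩ : Fin (n + 1))) = F).Nonempty
      · obtain ⟨z1, hz1⟩ := hne
        rw [Finset.mem_filter] at hz1
        refine le_trans ?_ (hzmax z1 hz1.1)
        rw [← Set.ncard_coe_finset]
        refine Set.ncard_le_ncard ?_ (Set.toFinite _)
        intro z2 hz2
        rw [Finset.mem_coe, Finset.mem_filter] at hz2
        refine mem_orb_of_mlt H _ _ fun O => ?_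
        have := congrFun (hz2.2.trans hz1.2.symm) O
        simpa using this
      · rw [Finset.not_nonempty_iff_eq_empty] at hne
        rw [hne]
        simp)
  rw [hS] at key
  refine key.trans (le_of_eq ?_)
  rw [Finset.card_univ, Fintype.card_fun, Fintype.card_fin, nOrb, Nat.card_eq_fintype_card]

end Lemmas

/-- the invariant of the construction -/
def Tow (ℓ : ℕ) : Prop :=
  ∃ (X : Type) (_ : Fintype X) (G : Subgroup (Perm X)) (x0 : X) (ι : Type) (_ : Fintype ι)
    (k e : ℕ) (β : Fin (256 * k) → Fin 9 → X),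
    PQ G ∧ 12 ≤ k ∧ 1 ≤ Fintype.card ι ∧ 1 ≤ e ∧ e * Fintype.card ι ≤ k ∧
    Fintype.card X ≤ 2 ^ e ∧ 2 ≤ Fintype.card X ∧ (k + 1) ^ nOrb (fx G x0) ≤ 2 ^ k ∧
    (∀ a b, ∀ g ∈ fx G x0, (∀ t, g (β a t) = β b t) → a = b ∧ g = 1) ∧
    Long ℓ (Wr (fx G x0) ι)


theorem Tow.zero : Tow 0 := by
  classical
  have hcard : Fintype.card (Fin (256 * 12)) ≤ Fintype.card (Fin 8 → Fin 3) := by
    rw [Fintype.card_fin, Fintype.card_fun, Fintype.card_fin, Fintype.card_fin]
    norm_num
  obtain ⟨emb⟩ := Function.Embedding.nonempty_of_card_le hcard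
  refine ⟨Fin 3, inferInstance, ⊤, 0, Unit, inferInstance, 12, 2,
    fun a => Fin.cons 1 (emb a), PQ.base, le_rfl, by simp, by norm_num, by simp, by simp, by simp,
    ?_, ?_, trivial⟩
  · have h1 : nOrb (fx (⊤ : Subgroup (Perm (Fin 3))) 0) ≤ 3 := by
      have h2 : nOrb (fx (⊤ : Subgroup (Perm (Fin 3))) 0) ≤ Nat.card (Fin 3) :=
        Nat.card_le_card_of_surjective (fun x => col _ x) (fun O => ⟨O.out, Quotient.out_eq O⟩)
      simpa using h2
    calc (12 + 1) ^ nOrb (fx (⊤ : Subgroup (Perm (Fin 3))) 0) ≤ (12 + 1) ^ 3 :=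
          Nat.pow_le_pow_right (by norm_num) h1
      _ ≤ 2 ^ 12 := by norm_num
  · rintro a b g ⟨-, hg0⟩ h
    have hg1 : g 1 = 1 := by simpa using h 0
    have hg : g = 1 := by
      ext x
      have h2 : g 2 = 2 := by
        have hne0 : g 2 ≠ g 0 := fun hc => by simpa using g.injective hc
        have hne1 : g 2 ≠ g 1 := fun hc => by simpa using g.injective hc
        rw [hg0] at hne0
        rw [hg1] at hne1
        generalize g 2 = t at *
        revert t
        decide
      fin_cases x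
      · simpa using congrArg Fin.val hg0
      · simpa using congrArg Fin.val hg1
      · simpa using congrArg Fin.val h2
    refine ⟨?_, hg⟩
    apply emb.injective
    ext t
    have := h t.succ
    rw [hg] at this
    simpa using congrArg Fin.val this

theorem Tow.succ {ℓ : ℕ} (h : Tow ℓ) : Tow (ℓ + 1) := by
  classical
  obtain ⟨X, instX, G, x0, ι, instι, k, e, β, hPQ, hk, hι, he, heι, hXe, hX2, horb, hβ, hL⟩ := h
  set H := fx G x0 with hH
  set κ := Fintype.card ι with hκ
  set N := Fintype.card X with hN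
  have hκk : κ ≤ k := le_trans (Nat.le_mul_of_pos_left _ he) heι
  have hek : e ≤ k := le_trans (Nat.le_mul_of_pos_right _ hι) heι
  set n := k - κ with hn
  have hHx0 : ∀ g ∈ H, g x0 = x0 := fun g hg => hg.2
  obtain ⟨z, hz, hzorb⟩ := exists_big_orb H x0 hX2 n
  let J := ι ⊕ Fin n
  have hJcard : Fintype.card J = k := by
    change Fintype.card (ι ⊕ Fin n) = k
    rw [Fintype.card_sum, Fintype.card_fin]
    omega
  let y : J → X := Sum.elim (fun _ => x0) z
  set H' := Wr H J with hH'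
  have hH'eq : fx (Wr G J) (fun _ => x0) = H' := fx_Wr_const G J x0
  have hXne : Nonempty X := ⟨x0⟩
  -- the long greedy sequence of the stabilizer of `y`
  have hLy : Long ℓ (fx H' y) := by
    have hsep : ∀ (i : ι) (j : Fin n), y (Equiv.refl J (Sum.inr j)) ∉
        orb H (y (Equiv.refl J (Sum.inl i))) := by
      rintro i j ⟨g, hg, hgx⟩
      refine hz j ?_
      rw [← hHx0 g hg]
      exact hgx.symm
    refine Long.prod _ ℓ _ _ _ (mem_fx_Wr_split (Equiv.refl J) y hsep) ?_
    have : (fun i : ι => y (Equiv.refl J (Sum.inl i))) = fun _ => x0 := rfl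
    rw [this, fx_Wr_fixed H ι x0 hHx0]
    exact hL
  -- nontriviality
  have hιne : Nonempty ι := Fintype.card_pos_iff.mp hι
  obtain ⟨i0⟩ := hιne
  have hPQ' : PQ (Wr G J) := hPQ.wr J
  have hX'2 : 2 ≤ Fintype.card (J → X) := by
    rw [Fintype.card_fun, hJcard]
    calc 2 = 2 ^ 1 := by norm_num
      _ ≤ 2 ^ k := Nat.pow_le_pow_right (by norm_num) (by omega)
      _ ≤ N ^ k := Nat.pow_le_pow_left hX2 k
  have hnt : ∃ g ∈ H', g ≠ 1 := by
    have : ∃ w : J → X, w ≠ fun _ => x0 := by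
      have : Nontrivial (J → X) := Fintype.one_lt_card_iff_nontrivial.mp hX'2
      exact exists_ne _
    obtain ⟨w, hw⟩ := this
    obtain ⟨g, hg, hgx, hgw⟩ := hPQ'.fixp (fun _ => x0) w hw.symm
    refine ⟨g, ?_, ?_⟩
    · rw [← hH'eq]
      exact ⟨hg, hgx⟩
    · rintro rfl
      exact hgw rfl
  obtain ⟨ι', instι', hL', hι'1, hι'c⟩ := level H' y ℓ hLy hnt
  -- orbit bound
  have horby : (orb (Wr H (Fin n)) z).ncard ≤ (orb H' y).ncard := by
    refine Set.ncard_le_ncard_of_injOn (fun z' => (Sum.elim (fun _ => x0) z' : J → X)) ?_ ?_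
      (Set.toFinite _)
    · rintro z' ⟨π, ⟨f, σ, hf, rfl⟩, rfl⟩
      refine ⟨wperm (Sum.elim (fun _ => 1) f) (Equiv.sumCongr 1 σ), wperm_mem ?_, ?_⟩
      · rintro (i | j)
        · exact H.one_mem
        · exact hf j
      · ext s
        rcases s with i | j
        · rfl
        · rfl
    · intro z1 _ z2 _ h12
      ext j
      exact congrFun h12 (Sum.inr j)
  have hcard3 : Fintype.card ι' ≤ 2 ^ (3 * k) := by
    have h1 : Fintype.card ι' * (orb (Wr H (Fin n)) z).ncard ≤ N ^ k := by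
      refine (Nat.mul_le_mul_left _ horby).trans (hι'c.trans (le_of_eq ?_))
      rw [Fintype.card_fun, hJcard]
    have h2 : (n + 1) ^ nOrb H ≤ 2 ^ k := by
      refine le_trans (Nat.pow_le_pow_left ?_ _) horb
      omega
    have h3 : Fintype.card ι' * (N - 1) ^ n ≤ N ^ k * 2 ^ k := by
      calc Fintype.card ι' * (N - 1) ^ n
          ≤ Fintype.card ι' * ((orb (Wr H (Fin n)) z).ncard * (n + 1) ^ nOrb H) :=
            Nat.mul_le_mul_left _ hzorb
        _ = (Fintype.card ι' * (orb (Wr H (Fin n)) z).ncard) * (n + 1) ^ nOrb H := by ring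
        _ ≤ N ^ k * 2 ^ k := Nat.mul_le_mul h1 h2
    have h4 : N ^ n ≤ 2 ^ n * (N - 1) ^ n := by
      rw [← mul_pow]
      exact Nat.pow_le_pow_left (by omega) n
    have h5 : Fintype.card ι' * N ^ n ≤ (2 ^ (n + k) * N ^ κ) * N ^ n := by
      calc Fintype.card ι' * N ^ n ≤ Fintype.card ι' * (2 ^ n * (N - 1) ^ n) :=
            Nat.mul_le_mul_left _ h4
        _ = 2 ^ n * (Fintype.card ι' * (N - 1) ^ n) := by ring
        _ ≤ 2 ^ n * (N ^ k * 2 ^ k) := Nat.mul_le_mul_left _ h3
        _ = (2 ^ (n + k) * N ^ κ) * N ^ n := by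
            have : k = κ + n := by omega
            rw [this, pow_add N, pow_add 2 n]
            ring
    have h6 : Fintype.card ι' ≤ 2 ^ (n + k) * N ^ κ :=
      Nat.le_of_mul_le_mul_right h5 (pow_pos (by omega) _)
    have h7 : N ^ κ ≤ 2 ^ k := by
      calc N ^ κ ≤ (2 ^ e) ^ κ := Nat.pow_le_pow_left hXe κ
        _ = 2 ^ (e * κ) := by rw [← pow_mul]
        _ ≤ 2 ^ k := Nat.pow_le_pow_right (by norm_num) heι
    calc Fintype.card ι' ≤ 2 ^ (n + k) * N ^ κ := h6
      _ ≤ 2 ^ (n + k) * 2 ^ k := Nat.mul_le_mul_left _ h7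
      _ = 2 ^ (n + k + k) := by rw [← pow_add]
      _ ≤ 2 ^ (3 * k) := Nat.pow_le_pow_right (by norm_num) (by omega)
  have hk2 : k ≤ 2 ^ k := Nat.lt_two_pow_self.le
  have h256 : 256 ^ (k - 1) = 2 ^ (8 * (k - 1)) := by
    rw [pow_mul]
    norm_num
  -- the new free family
  have hcardF : Fintype.card (Fin (256 * 256 ^ (k - 1))) = Fintype.card (J → Fin 256) := by
    rw [Fintype.card_fin, Fintype.card_fun, Fintype.card_fin, hJcard, ← pow_succ']
    congr 1
    omega
  have θ : Fin (256 * 256 ^ (k - 1)) ≃ (J → Fin 256) := Fintype.equivOfCardEq hcardF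
  have hcardI : Fintype.card (J × Fin 256) = Fintype.card (Fin (256 * k)) := by
    rw [Fintype.card_prod, hJcard, Fintype.card_fin, Fintype.card_fin, mul_comm]
  have idx : J × Fin 256 ≃ Fin (256 * k) := Fintype.equivOfCardEq hcardI
  refine ⟨J → X, inferInstance, Wr G J, fun _ => x0, ι', instι', 256 ^ (k - 1), e * k,
    fun a t j => β (idx (j, θ a j)) t, hPQ', ?_, hι'1, ?_, ?_, ?_, hX'2, ?_, ?_, ?_⟩
  · calc 12 ≤ 256 ^ 1 := by norm_num
      _ ≤ 256 ^ (k - 1) := Nat.pow_le_pow_right (by norm_num) (by omega)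
  · exact Nat.mul_pos he (by omega)
  · calc e * k * Fintype.card ι' ≤ 2 ^ k * 2 ^ k * 2 ^ (3 * k) :=
          Nat.mul_le_mul (Nat.mul_le_mul (hek.trans hk2) hk2) hcard3
      _ = 2 ^ (k + k + 3 * k) := by rw [← pow_add, ← pow_add]
      _ ≤ 2 ^ (8 * (k - 1)) := Nat.pow_le_pow_right (by norm_num) (by omega)
      _ = 256 ^ (k - 1) := h256.symm
  · rw [Fintype.card_fun, hJcard]
    calc N ^ k ≤ (2 ^ e) ^ k := Nat.pow_le_pow_left hXe k
      _ = 2 ^ (e * k) := by rw [← pow_mul]
  · rw [hH'eq]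
    have h1 : nOrb H' ≤ 2 ^ k := by
      refine (nOrb_Wr H J).trans ?_
      rw [hJcard]
      exact horb
    have h2 : 256 ^ (k - 1) + 1 ≤ 2 ^ (8 * k) := by
      have : 256 ^ (k - 1) + 1 ≤ 2 * 256 ^ (k - 1) := by
        have := Nat.one_le_pow (k - 1) 256 (by norm_num)
        omega
      refine this.trans ?_
      rw [h256, ← pow_succ']
      exact Nat.pow_le_pow_right (by norm_num) (by omega)
    calc (256 ^ (k - 1) + 1) ^ nOrb H' ≤ (2 ^ (8 * k)) ^ nOrb H' := Nat.pow_le_pow_left h2 _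
      _ ≤ (2 ^ (8 * k)) ^ (2 ^ k) := Nat.pow_le_pow_right (pow_pos (by norm_num) _) h1
      _ = 2 ^ (8 * k * 2 ^ k) := by rw [← pow_mul]
      _ ≤ 2 ^ (256 ^ (k - 1)) := by
          refine Nat.pow_le_pow_right (by norm_num) ?_
          calc 8 * k * 2 ^ k ≤ 2 ^ 3 * 2 ^ k * 2 ^ k :=
                Nat.mul_le_mul_right _ (Nat.mul_le_mul (by norm_num) hk2)
            _ = 2 ^ (3 + k + k) := by rw [← pow_add, ← pow_add]
            _ ≤ 2 ^ (8 * (k - 1)) := Nat.pow_le_pow_right (by norm_num) (by omega)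
            _ = 256 ^ (k - 1) := h256.symm
  · rw [hH'eq]
    rintro a b π ⟨f, σ, hf, rfl⟩ hab
    have h1 : ∀ j, idx (σ.symm j, θ a (σ.symm j)) = idx (j, θ b j) ∧ f j = 1 := by
      intro j
      refine hβ _ _ (f j) (hf j) fun t => ?_
      exact congrFun (hab t) j
    have h2 : ∀ j, σ.symm j = j ∧ θ a (σ.symm j) = θ b j := by
      intro j
      have := idx.injective (h1 j).1
      rw [Prod.mk.injEq] at this
      exact this
    refine ⟨?_, ?_⟩
    · apply θ.injective
      funext j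
      have := (h2 j).2
      rwa [(h2 j).1] at this
    · ext w j
      rw [wperm_apply, (h1 j).2, (h2 j).1]
      rfl
  · rw [hH'eq]
    exact hL'

theorem tow (ℓ : ℕ) : Tow ℓ := by
  induction ℓ with
  | zero => exact Tow.zero
  | succ ℓ ih => exact ih.succ

/-- Final form: primitive groups with a base of size `10` and long greedy bases. -/
theorem final (ℓ : ℕ) : ∃ (Y : Type) (_ : Fintype Y) (K : Subgroup (Perm Y)),
    MulAction.IsPreprimitive K Y ∧ (∃ k b, ℓ + 1 ≤ k ∧ GreedyBase K k b) ∧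
    ∃ m : Fin 10 → Y, ∀ g ∈ K, (∀ j, g (m j) = m j) → g = 1 := by
  classical
  obtain ⟨X, instX, G, x0, ι, instι, k, e, β, hPQ, hk, hι, he, heι, hXe, hX2, horb, hβ, hL⟩ :=
    tow ℓ
  have hPQ' : PQ (Wr G ι) := hPQ.wr ι
  have hκk : Fintype.card ι ≤ k := le_trans (Nat.le_mul_of_pos_left _ he) heι
  have hcard : 2 ≤ Fintype.card (ι → X) := by
    rw [Fintype.card_fun]
    calc 2 = 2 ^ 1 := by norm_num
      _ ≤ 2 ^ (Fintype.card ι) := Nat.pow_le_pow_right (by norm_num) hι
      _ ≤ _ := Nat.pow_le_pow_left hX2 _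
  refine ⟨ι → X, inferInstance, Wr G ι, hPQ'.isPreprimitive, ?_, ?_⟩
  · refine Long.exists_greedyBase (ℓ + 1) _ ⟨fun _ => x0, ?_, ?_, ?_⟩
    · have : Nontrivial (ι → X) := Fintype.one_lt_card_iff_nontrivial.mp hcard
      obtain ⟨w, hw⟩ := exists_ne (fun _ : ι => x0)
      obtain ⟨g, hg, hgx⟩ := hPQ'.trans (fun _ => x0) w
      exact ⟨g, hg, by rw [hgx]; exact hw⟩
    · intro z
      have h1 : ∀ z, orb (Wr G ι) z = Set.univ := by
        intro z
        ext w
        simp only [Set.mem_univ, iff_true]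
        exact hPQ'.trans z w
      rw [h1, h1]
    · rw [fx_Wr_const]
      exact hL
  · have hc : Fintype.card ι ≤ Fintype.card (Fin (256 * k)) := by
      rw [Fintype.card_fin]
      omega
    obtain ⟨emb⟩ := Function.Embedding.nonempty_of_card_le hc
    refine ⟨Fin.cons (fun _ => x0) (fun t j => β (emb j) t), ?_⟩
    intro g hg hfix
    have h0 : g (fun _ => x0) = fun _ => x0 := by simpa using hfix 0
    have hg' : g ∈ Wr (fx G x0) ι := by
      rw [← fx_Wr_const]
      exact ⟨hg, h0⟩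
    obtain ⟨f, σ, hf, rfl⟩ := hg'
    have h1 : ∀ j, emb (σ.symm j) = emb j ∧ f j = 1 := by
      intro j
      refine hβ _ _ (f j) (hf j) fun t => ?_
      have := hfix t.succ
      simp only [Fin.cons_succ] at this
      exact congrFun this j
    ext w j
    rw [wperm_apply, (h1 j).2, emb.injective (h1 j).1]
    rfl

end Pool.Agent.helper17.GB
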