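import Mathlib

set_option autoImplicit false

/-!
Greedy sequences of points for permutation groups (given as subgroups of `Equiv.Perm X`).
-/

namespace Pool.Agent.helper17.GB

open Equiv MulAction

universe u v w

section Defs

variable {X : Type u}

/-- The orbit of `x` under `K`. -/
def orb (K : Subgroup (Perm X)) (x : X) : Set X := {y | ∃ g ∈ K, g x = y}

/-- The stabilizer of `x` in `K`. -/
def fx (K : Subgroup (Perm X)) (x : X) : Subgroup (Perm X) where
  carrier := {g | g ∈ K ∧ g x = x}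
  mul_mem' := by
    rintro a b ⟨ha, ha'⟩ ⟨hb, hb'⟩
    exact ⟨K.mul_mem ha hb, by rw [Perm.mul_apply, hb', ha']⟩
  one_mem' := ⟨K.one_mem, rfl⟩
  inv_mem' := by
    rintro a ⟨ha, ha'⟩
    exact ⟨K.inv_mem ha, by rw [Perm.inv_eq_iff_eq, ha']⟩

theorem mem_fx {K : Subgroup (Perm X)} {x : X} {g : Perm X} :
    g ∈ fx K x ↔ g ∈ K ∧ g x = x := Iff.rfl

theorem mem_orb {K : Subgroup (Perm X)} {x y : X} :
    y ∈ orb K x ↔ ∃ g ∈ K, g x = y := Iff.rfl

theorem self_mem_orb (K : Subgroup (Perm X)) (x : X) : x ∈ orb K x := ⟨1, K.one_mem, rfl⟩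

/-- `Long n K`: some greedy sequence for `K` has at least `n` points. -/
def Long : ℕ → Subgroup (Perm X) → Prop
  | 0, _ => True
  | n + 1, K => ∃ x, (∃ g ∈ K, g x ≠ x) ∧
      (∀ z, (orb K z).ncard ≤ (orb K x).ncard) ∧ Long n (fx K x)

/-- A greedy base, in the form used by the frozen statement. -/
def GreedyBase (K : Subgroup (Perm X)) (k : ℕ) (b : Fin k → X) : Prop :=
  (∀ g ∈ K, (∀ j : Fin k, g (b j) = b j) → g = 1) ∧
  (∀ i : Fin k,
    2 ≤ {y : X | ∃ g ∈ K, (∀ j : Fin k, j < i → g (b j) = b j) ∧ g (b i) = y}.ncard ∧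
    ∀ z : X, {y : X | ∃ g ∈ K, (∀ j : Fin k, j < i → g (b j) = b j) ∧ g z = y}.ncard ≤
      {y : X | ∃ g ∈ K, (∀ j : Fin k, j < i → g (b j) = b j) ∧ g (b i) = y}.ncard)

theorem GreedyBase.cons [Finite X] {K : Subgroup (Perm X)} {x : X} (hx : ∃ g ∈ K, g x ≠ x)
    (hmax : ∀ z, (orb K z).ncard ≤ (orb K x).ncard) {k : ℕ} {b : Fin k → X}
    (hb : GreedyBase (fx K x) k b) : GreedyBase K (k + 1) (Fin.cons x b) := by
  obtain ⟨hb1, hb2⟩ := hb
  refine ⟨?_, ?_⟩
  · intro g hg hj
    refine hb1 g ⟨hg, ?_⟩ ?_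
    · simpa using hj 0
    · intro j
      simpa using hj j.succ
  · intro i
    refine Fin.cases ?_ ?_ i
    · have h0 : ∀ z : X, {y : X | ∃ g ∈ K, (∀ j : Fin (k+1), j < 0 →
          g ((Fin.cons x b : Fin (k+1) → X) j) = (Fin.cons x b : Fin (k+1) → X) j) ∧ g z = y}
          = orb K z := by
        intro z
        ext y
        simp [orb]
      simp only [Fin.cons_zero]
      rw [h0]
      refine ⟨?_, ?_⟩
      · obtain ⟨g, hg, hgx⟩ := hx
        have : ({x, g x} : Set X) ⊆ orb K x := by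
          rintro y (rfl | rfl)
          · exact self_mem_orb K _
          · exact ⟨g, hg, rfl⟩
        have h2 : ({x, g x} : Set X).ncard = 2 := Set.ncard_pair (Ne.symm hgx)
        rw [← h2]
        exact Set.ncard_le_ncard this (Set.toFinite _)
      · intro z
        rw [h0]
        exact hmax z
    · intro i'
      have h1 : ∀ z : X, {y : X | ∃ g ∈ K, (∀ j : Fin (k+1), j < i'.succ →
          g ((Fin.cons x b : Fin (k+1) → X) j) = (Fin.cons x b : Fin (k+1) → X) j) ∧ g z = y}
          = {y : X | ∃ g ∈ fx K x, (∀ j : Fin k, j < i' → g (b j) = b j) ∧ g z = y} := by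
        intro z
        ext y
        constructor
        · rintro ⟨g, hg, hj, hy⟩
          refine ⟨g, ⟨hg, by simpa using hj 0 (Fin.succ_pos _)⟩, ?_, hy⟩
          intro j hji
          simpa using hj j.succ (Fin.succ_lt_succ_iff.mpr hji)
        · rintro ⟨g, ⟨hg, hgx⟩, hj, hy⟩
          refine ⟨g, hg, ?_, hy⟩
          intro j
          refine Fin.cases ?_ ?_ j
          · intro _; simpa using hgx
          · intro j' hj'
            simpa using hj j' (Fin.succ_lt_succ_iff.mp hj')
      simp only [Fin.cons_succ]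
      rw [h1]
      refine ⟨(hb2 i').1, ?_⟩
      intro z
      rw [h1]
      exact (hb2 i').2 z

theorem exists_max_orb [Finite X] [Nonempty X] (K : Subgroup (Perm X)) :
    ∃ x, ∀ z, (orb K z).ncard ≤ (orb K x).ncard :=
  Finite.exists_max fun x => (orb K x).ncard

/-- a point of maximal orbit is moved when the group is nontrivial -/
theorem moved_of_max [Finite X] {K : Subgroup (Perm X)} {x : X}
    (hmax : ∀ z, (orb K z).ncard ≤ (orb K x).ncard) {g : Perm X} (hg : g ∈ K) (hg1 : g ≠ 1) :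
    ∃ g ∈ K, g x ≠ x := by
  by_contra hcon
  push Not at hcon
  apply hg1
  ext z
  have hx : orb K x = {x} := by
    ext y
    constructor
    · rintro ⟨g, hg, rfl⟩
      simp [hcon g hg]
    · rintro rfl
      exact self_mem_orb K _
  have h1 := hmax z
  rw [hx, Set.ncard_singleton] at h1
  have h2 : (orb K z).Subsingleton := by
    rw [← Set.encard_le_one_iff_subsingleton]
    rw [← (Set.toFinite (orb K z)).cast_ncard_eq]
    exact_mod_cast h1
  exact h2 ⟨g, hg, rfl⟩ (self_mem_orb K z)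

theorem exists_greedyBase_aux [Finite X] : ∀ (n : ℕ) (K : Subgroup (Perm X)),
    Nat.card K ≤ n → ∃ k b, GreedyBase K k b := by
  intro n
  induction n with
  | zero =>
    intro K hK
    have : 0 < Nat.card K := Nat.card_pos
    omega
  | succ n ih =>
    intro K hK
    by_cases hbot : ∀ g ∈ K, g = 1
    · exact ⟨0, Fin.elim0, fun g hg _ => hbot g hg, fun i => i.elim0⟩
    · push Not at hbot
      obtain ⟨g, hg, hg1⟩ := hbot
      have hne : Nonempty X := by
        by_contra hX
        rw [not_nonempty_iff] at hX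
        exact hg1 (Subsingleton.elim _ _)
      obtain ⟨x, hmax⟩ := exists_max_orb K
      have hmv := moved_of_max hmax hg hg1
      obtain ⟨g', hg', hgx'⟩ := hmv
      have hlt : fx K x < K := by
        refine lt_of_le_of_ne (fun a ha => ha.1) ?_
        intro heq
        have : g' ∈ fx K x := by rw [heq]; exact hg'
        exact hgx' this.2
      have hcard : Nat.card (fx K x) < Nat.card K := by
        have := Set.ncard_lt_ncard (s := (fx K x : Set (Perm X))) (t := (K : Set (Perm X))) hlt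
          (Set.toFinite _)
        rwa [← Nat.card_coe_set_eq, ← Nat.card_coe_set_eq] at this
      obtain ⟨k, b, hb⟩ := ih (fx K x) (by omega)
      exact ⟨k + 1, Fin.cons x b, hb.cons ⟨g', hg', hgx'⟩ hmax⟩

theorem exists_greedyBase [Finite X] (K : Subgroup (Perm X)) : ∃ k b, GreedyBase K k b :=
  exists_greedyBase_aux _ K le_rfl

theorem Long.exists_greedyBase [Finite X] : ∀ (n : ℕ) (K : Subgroup (Perm X)), Long n K →
    ∃ k b, n ≤ k ∧ GreedyBase K k b := by
  intro n
  induction n with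
  | zero =>
    intro K _
    obtain ⟨k, b, hb⟩ := GB.exists_greedyBase K
    exact ⟨k, b, Nat.zero_le _, hb⟩
  | succ n ih =>
    rintro K ⟨x, hx, hmax, hLong⟩
    obtain ⟨k, b, hk, hb⟩ := ih _ hLong
    exact ⟨k + 1, Fin.cons x b, by omega, hb.cons hx hmax⟩

end Defs

section Product

variable {X : Type u} {Z : Type v} {Y : Type w}

/-- The direct product lemma. -/
theorem Long.prod [Finite X] [Finite Z] [Nonempty Z] [Finite Y] (e : Y ≃ X × Z) :
    ∀ (n : ℕ) (A : Subgroup (Perm X)) (B : Subgroup (Perm Z)) (J : Subgroup (Perm Y)),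
    (∀ π : Perm Y, π ∈ J ↔ ∃ a ∈ A, ∃ b ∈ B, ∀ y, e (π y) = (a (e y).1, b (e y).2)) →
    Long n A → Long n J := by
  intro n
  induction n with
  | zero => intro A B J _ _; trivial
  | succ n ih =>
    rintro A B J hJ ⟨x, ⟨g, hg, hgx⟩, hmax, hLong⟩
    obtain ⟨z, hz⟩ := exists_max_orb B
    have horb : ∀ x' z', orb J (e.symm (x', z')) = e.symm '' (orb A x' ×ˢ orb B z') := by
      intro x' z'
      ext y
      constructor
      · rintro ⟨π, hπ, rfl⟩
        obtain ⟨a, ha, b, hb, hab⟩ := (hJ π).1 hπ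
        refine ⟨(a x', b z'), ⟨⟨a, ha, rfl⟩, ⟨b, hb, rfl⟩⟩, ?_⟩
        rw [Equiv.symm_apply_eq, hab]
        simp
      · rintro ⟨⟨x1, z1⟩, ⟨⟨a, ha, hax⟩, ⟨b, hb, hbz⟩⟩, rfl⟩
        refine ⟨(e.trans (Equiv.prodCongr a b)).trans e.symm, ?_, ?_⟩
        · rw [hJ]
          exact ⟨a, ha, b, hb, fun y => by simp [Prod.map]⟩
        · simp only at hax hbz
          simp [hax, hbz]
    have hcard : ∀ x' z', (orb J (e.symm (x', z'))).ncard = (orb A x').ncard * (orb B z').ncard := by
      intro x' z'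
      rw [horb, Set.ncard_image_of_injective _ e.symm.injective, Set.ncard_prod]
    refine ⟨e.symm (x, z), ?_, ?_, ?_⟩
    · refine ⟨(e.trans (Equiv.prodCongr g 1)).trans e.symm, ?_, ?_⟩
      · rw [hJ]
        exact ⟨g, hg, 1, B.one_mem, fun y => by simp [Prod.map]⟩
      · simp [hgx]
    · intro y
      have hy : y = e.symm ((e y).1, (e y).2) := by simp
      rw [hy, hcard, hcard]
      exact Nat.mul_le_mul (hmax _) (hz _)
    · refine ih (fx A x) (fx B z) _ ?_ hLong
      intro π
      rw [mem_fx, hJ]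
      constructor
      · rintro ⟨⟨a, ha, b, hb, hab⟩, hfix⟩
        have := hab (e.symm (x, z))
        rw [hfix] at this
        simp only [apply_symm_apply, Prod.mk.injEq] at this
        exact ⟨a, ⟨ha, this.1.symm⟩, b, ⟨hb, this.2.symm⟩, hab⟩
      · rintro ⟨a, ha, b, hb, hab⟩
        refine ⟨⟨a, ha.1, b, hb.1, hab⟩, ?_⟩
        apply e.injective
        rw [hab]
        simp [ha.2, hb.2]

end Product

end Pool.Agent.helper17.GB
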