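import Pool.Agent.helper17.GB.Wreath

set_option autoImplicit false

/-!
Orbit sizes for wreath products in product action.
-/

namespace Pool.Agent.helper17.GB

open Equiv

universe u v w

section Orbits

variable {X : Type u} (H : Subgroup (Perm X))

theorem orbit_eq_orb (x : X) : MulAction.orbit H x = orb H x := by
  ext y
  constructor
  · rintro ⟨g, rfl⟩
    exact ⟨g.1, g.2, rfl⟩
  · rintro ⟨g, hg, rfl⟩
    exact ⟨⟨g, hg⟩, rfl⟩

/-- the stabilizer inside the group and `fx` have the same size -/
theorem card_stab (x : X) : Nat.card (MulAction.stabilizer H x) = Nat.card (fx H x) := by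
  refine Nat.card_congr
    { toFun := fun g => ⟨g.1.1, g.1.2, g.2⟩
      invFun := fun g => ⟨⟨g.1, g.2.1⟩, g.2.2⟩
      left_inv := fun g => rfl
      right_inv := fun g => rfl }

theorem orbit_mul_stab {G : Type v} [Group G] {Y : Type w} [MulAction G Y] (y : Y) :
    (MulAction.orbit G y).ncard * Nat.card (MulAction.stabilizer G y) = Nat.card G := by
  rw [← MulAction.index_stabilizer]
  exact Subgroup.index_mul_card _

theorem orb_mul_fx (x : X) : (orb H x).ncard * Nat.card (fx H x) = Nat.card H := by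
  rw [← orbit_eq_orb, ← card_stab]
  exact orbit_mul_stab x

/-- the colour (orbit) of a point -/
def col (x : X) : MulAction.orbitRel.Quotient H X := Quotient.mk (MulAction.orbitRel H X) x

theorem col_eq {x y : X} : col H x = col H y ↔ x ∈ orb H y := by
  unfold col
  rw [Quotient.eq, MulAction.orbitRel_apply, orbit_eq_orb]

theorem orb_eq_of_mem {x y : X} (h : x ∈ orb H y) : orb H x = orb H y := by
  rw [← orbit_eq_orb, ← orbit_eq_orb]
  rw [← orbit_eq_orb] at h
  exact MulAction.orbit_eq_iff.mpr h

theorem card_fx_of_mem [Finite X] {x y : X} (h : x ∈ orb H y) :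
    Nat.card (fx H x) = Nat.card (fx H y) := by
  have h1 := orb_mul_fx H x
  have h2 := orb_mul_fx H y
  rw [orb_eq_of_mem H h] at h1
  have h3 : 0 < (orb H y).ncard := by
    rw [Set.ncard_pos (Set.toFinite _)]
    exact ⟨y, self_mem_orb H y⟩
  exact Nat.eq_of_mul_eq_mul_left h3 (h1.trans h2.symm)

theorem mem_orb_symm {x y : X} (h : x ∈ orb H y) : y ∈ orb H x := by
  obtain ⟨g, hg, rfl⟩ := h
  exact ⟨g⁻¹, H.inv_mem hg, by simp⟩

theorem card_transporter [Finite X] {x y : X} (h : y ∈ orb H x) :
    Nat.card {g : H // (g : Perm X) x = y} = Nat.card (fx H y) := by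
  obtain ⟨k, hk, hkx⟩ := h
  refine Nat.card_congr
    { toFun := fun g => ⟨g.1.1 * k⁻¹, H.mul_mem g.1.2 (H.inv_mem hk), ?_⟩
      invFun := fun g => ⟨⟨g.1 * k, H.mul_mem g.2.1 hk⟩, ?_⟩
      left_inv := fun g => ?_
      right_inv := fun g => ?_ }
  · have : k⁻¹ y = x := by rw [← hkx]; simp
    rw [Perm.mul_apply, this]
    exact g.2
  · simp only [Perm.mul_apply, hkx]
    exact g.2.2
  · apply Subtype.ext
    apply Subtype.ext
    simp
  · apply Subtype.ext
    simp

end Orbits

section WG

variable {X : Type u} (H : Subgroup (Perm X)) (ι : Type v)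

/-- the abstract wreath product -/
abbrev WG := SemidirectProduct (ι → H) (Perm ι) mulAutArrow

/-- its product action -/
@[reducible] def wact : MulAction (WG H ι) (ι → X) where
  smul p y := wperm (fun i => (p.left i : Perm X)) p.right y
  one_smul y := by
    ext i
    rfl
  mul_smul p q y := by
    ext i
    change (((p * q).left i : H) : Perm X) (y ((p * q).right.symm i)) = _
    rfl

theorem orbit_wact (y : ι → X) :
    letI := wact H ι
    MulAction.orbit (WG H ι) y = orb (Wr H ι) y := by
  let _i := wact H ι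
  ext z
  constructor
  · rintro ⟨p, rfl⟩
    exact ⟨wperm (fun i => (p.left i : Perm X)) p.right, wperm_mem fun i => (p.left i).2, rfl⟩
  · rintro ⟨π, ⟨f, σ, hf, rfl⟩, rfl⟩
    exact ⟨⟨fun i => ⟨f i, hf i⟩, σ⟩, rfl⟩

/-- number of indices with a given colour -/
noncomputable def mlt {ι : Type v} (y : ι → X) (O : MulAction.orbitRel.Quotient H X) : ℕ :=
  Nat.card {i // col H (y i) = O}

/-- size of the stabilizer of a point in the orbit `O` -/
noncomputable def hQ (O : MulAction.orbitRel.Quotient H X) : ℕ := Nat.card (fx H O.out)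

theorem hQ_col [Finite X] (x : X) : hQ H (col H x) = Nat.card (fx H x) := by
  refine card_fx_of_mem H ?_
  rw [← col_eq]
  exact Quotient.out_eq _

theorem card_wstab [Finite X] [Fintype ι] [Fintype (MulAction.orbitRel.Quotient H X)]
    (y : ι → X) :
    letI := wact H ι
    Nat.card (MulAction.stabilizer (WG H ι) y) =
      ∏ O, (mlt H y O).factorial * hQ H O ^ mlt H y O := by
  classical
  let _i := wact H ι
  set c : ι → MulAction.orbitRel.Quotient H X := fun i => col H (y i) with hc
  have key : MulAction.stabilizer (WG H ι) y ≃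
      Σ τ : {τ : Perm ι // c ∘ τ = c}, ∀ i, {g : H // (g : Perm X) (y (τ.1 i)) = y i} :=
    { toFun := fun p => ⟨⟨p.1.right.symm, by
          funext i
          have h : (p.1.left i : Perm X) (y (p.1.right.symm i)) = y i := congrFun p.2 i
          refine ((col_eq H).2 ?_).symm
          exact ⟨_, (p.1.left i).2, h⟩⟩, fun i => ⟨p.1.left i, congrFun p.2 i⟩⟩
      invFun := fun q => ⟨⟨fun i => (q.2 i).1, q.1.1.symm⟩, by
          funext i
          exact (q.2 i).2⟩
      left_inv := fun p => by
        apply Subtype.ext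
        rfl
      right_inv := fun q => by
        rfl }
  rw [Nat.card_congr key, Nat.card_sigma]
  have h1 : ∀ τ : {τ : Perm ι // c ∘ τ = c},
      Nat.card (∀ i, {g : H // (g : Perm X) (y (τ.1 i)) = y i}) = ∏ i, hQ H (c i) := by
    intro τ
    rw [Nat.card_pi]
    refine Finset.prod_congr rfl fun i _ => ?_
    rw [hQ_col]
    refine card_transporter H ?_
    rw [← col_eq]
    exact (congrFun τ.2 i).symm
  rw [Finset.sum_congr rfl fun τ _ => h1 τ, Finset.sum_const, smul_eq_mul, Finset.card_univ]
  have h2 : Fintype.card {τ : Perm ι // c ∘ τ = c} = ∏ O, (mlt H y O).factorial := by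
    rw [DomMulAct.stabilizer_card c]
    refine Finset.prod_congr rfl fun O _ => ?_
    unfold mlt
    rw [Nat.card_eq_fintype_card]
  have h3 : ∏ i, hQ H (c i) = ∏ O, hQ H O ^ mlt H y O := by
    rw [← Finset.prod_fiberwise' Finset.univ c (fun O => hQ H O)]
    refine Finset.prod_congr rfl fun O _ => ?_
    rw [Finset.prod_const]
    congr 1
    unfold mlt
    rw [Nat.card_eq_fintype_card, Fintype.card_subtype]
  rw [h2, h3, Finset.prod_mul_distrib]

/-- orbit size times stabilizer size -/
theorem orb_Wr_mul [Finite X] [Fintype ι] [Fintype (MulAction.orbitRel.Quotient H X)]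
    (y : ι → X) :
    (orb (Wr H ι) y).ncard * ∏ O, (mlt H y O).factorial * hQ H O ^ mlt H y O =
      Nat.card (WG H ι) := by
  let _i := wact H ι
  rw [← card_wstab, ← orbit_wact]
  exact orbit_mul_stab y

theorem sum_mlt [Fintype ι] [Fintype (MulAction.orbitRel.Quotient H X)] (y : ι → X) :
    ∑ O, mlt H y O = Fintype.card ι := by
  classical
  have := Finset.card_eq_sum_card_fiberwise (s := (Finset.univ : Finset ι))
    (t := (Finset.univ : Finset (MulAction.orbitRel.Quotient H X)))
    (f := fun i => col H (y i)) (fun _ _ => Finset.mem_coe.2 (Finset.mem_univ _))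
  rw [Finset.card_univ] at this
  rw [this]
  refine Finset.sum_congr rfl fun O _ => ?_
  unfold mlt
  rw [Nat.card_eq_fintype_card, Fintype.card_subtype]

end WG

/-- the termwise inequality -/
theorem term_ineq (h s m m' : ℕ) (h1 : h * m ≤ s) (h2 : s ≤ h * (m + 1)) :
    (m.factorial * h ^ m) * s ^ m' ≤ (m'.factorial * h ^ m') * s ^ m := by
  rcases le_total m m' with hle | hle
  · obtain ⟨d, rfl⟩ := Nat.exists_eq_add_of_le hle
    have h3 : s ^ d ≤ h ^ d * (m + 1) ^ d := by
      rw [← mul_pow]; exact Nat.pow_le_pow_left h2 d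
    have h4 : m.factorial * (m + 1) ^ d ≤ (m + d).factorial := Nat.factorial_mul_pow_le_factorial
    calc (m.factorial * h ^ m) * s ^ (m + d) = (m.factorial * h ^ m * s ^ m) * s ^ d := by ring
      _ ≤ (m.factorial * h ^ m * s ^ m) * (h ^ d * (m + 1) ^ d) := Nat.mul_le_mul_left _ h3
      _ = (m.factorial * (m + 1) ^ d) * (h ^ (m + d) * s ^ m) := by ring
      _ ≤ (m + d).factorial * (h ^ (m + d) * s ^ m) := Nat.mul_le_mul_right _ h4
      _ = _ := by ring
  · obtain ⟨d, rfl⟩ := Nat.exists_eq_add_of_le hle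
    have h3 : (h * (m' + d)) ^ d ≤ s ^ d := Nat.pow_le_pow_left h1 d
    have h4 : (m' + d).factorial ≤ m'.factorial * (m' + d) ^ d := by
      have := Nat.factorial_mul_descFactorial (n := m' + d) (k := d) (by omega)
      rw [← this, Nat.add_sub_cancel]
      exact Nat.mul_le_mul_left _ (Nat.descFactorial_le_pow _ _)
    calc ((m' + d).factorial * h ^ (m' + d)) * s ^ m'
        ≤ ((m'.factorial * (m' + d) ^ d) * h ^ (m' + d)) * s ^ m' :=
          Nat.mul_le_mul_right _ (Nat.mul_le_mul_right _ h4)
      _ = (m'.factorial * h ^ m' * s ^ m') * (h * (m' + d)) ^ d := by rw [mul_pow]; ring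
      _ ≤ (m'.factorial * h ^ m' * s ^ m') * s ^ d := Nat.mul_le_mul_left _ h3
      _ = _ := by ring

section Max

variable {X : Type u} (H : Subgroup (Perm X)) {ι : Type v}

theorem max_orb_Wr [Finite X] [Fintype ι] (y : ι → X) (s : ℕ) (hs : 0 < s)
    (h1 : ∀ O, hQ H O * mlt H y O ≤ s) (h2 : ∀ O, s ≤ hQ H O * (mlt H y O + 1)) (z : ι → X) :
    (orb (Wr H ι) z).ncard ≤ (orb (Wr H ι) y).ncard := by
  classical
  have : Fintype (MulAction.orbitRel.Quotient H X) := Fintype.ofFinite _
  have ey := orb_Wr_mul H ι y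
  have ez := orb_Wr_mul H ι z
  set P : (ι → X) → ℕ := fun y => ∏ O, (mlt H y O).factorial * hQ H O ^ mlt H y O with hP
  have hle : P y ≤ P z := by
    have h3 : P y * ∏ O, s ^ mlt H z O ≤ P z * ∏ O, s ^ mlt H y O := by
      rw [hP]
      simp only
      rw [← Finset.prod_mul_distrib, ← Finset.prod_mul_distrib]
      exact Finset.prod_le_prod' fun O _ => term_ineq _ _ _ _ (h1 O) (h2 O)
    rw [Finset.prod_pow_eq_pow_sum, Finset.prod_pow_eq_pow_sum, sum_mlt, sum_mlt] at h3
    exact Nat.le_of_mul_le_mul_right h3 (pow_pos hs _)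
  have hpos : 0 < P y := by
    refine Finset.prod_pos fun O _ => Nat.mul_pos (Nat.factorial_pos _) (pow_pos ?_ _)
    exact Nat.card_pos
  have h4 : (orb (Wr H ι) z).ncard * P y ≤ (orb (Wr H ι) y).ncard * P y := by
    calc (orb (Wr H ι) z).ncard * P y ≤ (orb (Wr H ι) z).ncard * P z := Nat.mul_le_mul_left _ hle
      _ = (orb (Wr H ι) y).ncard * P y := ez.trans ey.symm
  exact Nat.le_of_mul_le_mul_right h4 hpos

end Max

end Pool.Agent.helper17.GB
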