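import Pool.Agent.helper17.GB.Count

set_option autoImplicit false

/-!
The level step.
-/

namespace Pool.Agent.helper17.GB

open Equiv

theorem sum_orb {X : Type} [Fintype X] (H : Subgroup (Perm X))
    [Fintype (MulAction.orbitRel.Quotient H X)] :
    ∑ O : MulAction.orbitRel.Quotient H X, (orb H O.out).ncard = Fintype.card X := by
  classical
  have := Finset.card_eq_sum_card_fiberwise (s := (Finset.univ : Finset X))
    (t := (Finset.univ : Finset (MulAction.orbitRel.Quotient H X)))
    (f := fun x => col H x) (fun _ _ => Finset.mem_coe.2 (Finset.mem_univ _))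
  rw [Finset.card_univ] at this
  rw [this]
  refine Finset.sum_congr rfl fun O _ => ?_
  rw [← Set.ncard_coe_finset]
  congr 1
  ext x
  simp only [Finset.coe_filter, Finset.mem_univ, true_and, Set.mem_ofPred_eq]
  have : O = col H O.out := (Quotient.out_eq O).symm
  rw [this, col_eq, ← this]

theorem level {X : Type} [Fintype X] (H : Subgroup (Perm X)) (y : X) (n : ℕ)
    (hL : Long n (fx H y)) (hnt : ∃ g ∈ H, g ≠ 1) :
    ∃ (ι : Type) (_ : Fintype ι), Long (n + 1) (Wr H ι) ∧ 1 ≤ Fintype.card ι ∧
      Fintype.card ι * (orb H y).ncard ≤ Fintype.card X := by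
  classical
  have instQ : Fintype (MulAction.orbitRel.Quotient H X) := Fintype.ofFinite _
  set s : ℕ := Nat.card (fx H y) with hs
  have hspos : 0 < s := Nat.card_pos
  have hQpos : ∀ O : MulAction.orbitRel.Quotient H X, 0 < hQ H O := fun O => Nat.card_pos
  let ι : Type := Σ O : MulAction.orbitRel.Quotient H X, Fin (s / hQ H O)
  let v : ι → X := fun i => if i.1 = col H y then y else i.1.out
  have hcol : ∀ i : ι, col H (v i) = i.1 := by
    intro i
    by_cases h : i.1 = col H y
    · simp only [v, h, if_true]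
    · simp only [v, h, if_false]
      exact Quotient.out_eq _
  have hmlt : ∀ O, mlt H v O = s / hQ H O := by
    intro O
    unfold mlt
    have e1 : {i : ι // col H (v i) = O} ≃ {i : ι // i.1 = O} :=
      Equiv.subtypeEquivRight fun i => by rw [hcol]
    rw [Nat.card_congr (e1.trans (Equiv.sigmaSubtype O)), Nat.card_eq_fintype_card,
      Fintype.card_fin]
  have hmax : ∀ z, (orb (Wr H ι) z).ncard ≤ (orb (Wr H ι) v).ncard := by
    refine max_orb_Wr H v s hspos ?_ ?_
    · intro O
      rw [hmlt]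
      exact Nat.mul_div_le _ _
    · intro O
      rw [hmlt]
      exact (Nat.lt_mul_div_succ s (hQpos O)).le
  have hsy : s / hQ H (col H y) = 1 := by
    rw [hQ_col, ← hs, Nat.div_self hspos]
  let i₀ : ι := ⟨col H y, ⟨0, by rw [hsy]; exact Nat.one_pos⟩⟩
  have hi₀ : ∀ i : ι, i.1 = col H y → i = i₀ := by
    rintro ⟨O, j⟩ h
    simp only at h
    subst h
    have : j = ⟨0, by rw [hsy]; exact Nat.one_pos⟩ := by
      apply Fin.ext
      have := j.2
      simp only
      omega
    rw [this]
  have hvi₀ : v i₀ = y := by simp [v, i₀]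
  -- splitting off the coordinate i₀
  have huniq : Unique {i : ι // i = i₀} := ⟨⟨⟨i₀, rfl⟩⟩, fun a => Subtype.ext a.2⟩
  let ε : {i : ι // i = i₀} ⊕ {i : ι // ¬ i = i₀} ≃ ι := Equiv.sumCompl (fun i => i = i₀)
  have hsep : ∀ i j, v (ε (Sum.inr j)) ∉ orb H (v (ε (Sum.inl i))) := by
    intro i j hij
    have h1 : ε (Sum.inl i) = i₀ := i.2
    have h2 : ε (Sum.inr j) = j.1 := rfl
    rw [h1, h2, ← col_eq, hcol, hcol] at hij
    exact j.2 (hi₀ _ hij)
  have hX : Nonempty X := ⟨y⟩
  have hL1 : Long n (fx (Wr H {i : ι // i = i₀}) (fun i => v (ε (Sum.inl i)))) := by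
    refine Long.prod _ n _ _ _ (mem_fx_Wr_unique (fun i => v (ε (Sum.inl i)))) ?_
    have : v (ε (Sum.inl (default : {i : ι // i = i₀}))) = y := by
      have h1 : ε (Sum.inl (default : {i : ι // i = i₀})) = i₀ :=
        (default : {i : ι // i = i₀}).2
      rw [h1, hvi₀]
    rw [this]
    exact hL
  have hL2 : Long n (fx (Wr H ι) v) :=
    Long.prod _ n _ _ _ (mem_fx_Wr_split ε v hsep) hL1
  refine ⟨ι, inferInstance, ?_, ?_, ?_⟩
  · refine ⟨v, ?_, hmax, hL2⟩
    obtain ⟨g, hg, hg1⟩ := hnt
    refine moved_of_max hmax (g := wperm (fun _ => g) 1) (wperm_mem fun _ => hg) ?_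
    intro hcon
    apply hg1
    ext x
    have := congrFun (Equiv.congr_fun hcon (fun _ => x)) i₀
    simpa using this
  · exact Fintype.card_pos_iff.mpr ⟨i₀⟩
  · rw [← sum_orb H]
    have hcι : Fintype.card ι = ∑ O, s / hQ H O := by
      rw [Fintype.card_sigma]
      simp
    rw [hcι, Finset.sum_mul]
    refine Finset.sum_le_sum fun O _ => ?_
    have h1 : (orb H y).ncard * s = Nat.card H := orb_mul_fx H y
    have h2 : (orb H O.out).ncard * hQ H O = Nat.card H := orb_mul_fx H _
    have h3 : (s / hQ H O * (orb H y).ncard) * hQ H O ≤ (orb H O.out).ncard * hQ H O := by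
      calc (s / hQ H O * (orb H y).ncard) * hQ H O = (s / hQ H O * hQ H O) * (orb H y).ncard := by
            ring
        _ ≤ s * (orb H y).ncard := Nat.mul_le_mul_right _ (Nat.div_mul_le_self _ _)
        _ = (orb H O.out).ncard * hQ H O := by rw [mul_comm, h1, h2]
    exact Nat.le_of_mul_le_mul_right h3 (hQpos O)

end Pool.Agent.helper17.GB
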