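import Pool.Agent.helper17.GB.Basic

set_option autoImplicit false

/-!
The wreath product `H wr Sym ι` in product action on `ι → X`, as a subgroup of `Perm (ι → X)`.
-/

namespace Pool.Agent.helper17.GB

open Equiv

universe u v w

section Wr

variable {X : Type u}

/-- the permutation of `ι → X` given by `f : ι → Perm X` and `σ : Perm ι` -/
def wperm {ι : Type v} (f : ι → Perm X) (σ : Perm ι) : Perm (ι → X) where
  toFun w := fun i => f i (w (σ.symm i))
  invFun w := fun i => (f (σ i)).symm (w (σ i))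
  left_inv w := by ext i; simp
  right_inv w := by ext i; simp

@[simp] theorem wperm_apply {ι : Type v} (f : ι → Perm X) (σ : Perm ι) (w : ι → X) (i : ι) :
    wperm f σ w i = f i (w (σ.symm i)) := rfl

/-- the wreath product in product action -/
def Wr (H : Subgroup (Perm X)) (ι : Type v) : Subgroup (Perm (ι → X)) where
  carrier := {π | ∃ (f : ι → Perm X) (σ : Perm ι), (∀ i, f i ∈ H) ∧ π = wperm f σ}
  mul_mem' := by
    rintro a b ⟨f, σ, hf, rfl⟩ ⟨f', σ', hf', rfl⟩
    refine ⟨fun i => f i * f' (σ.symm i), σ * σ', fun i => H.mul_mem (hf i) (hf' _), ?_⟩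
    ext w i
    simp [Perm.mul_def]
  one_mem' := ⟨fun _ => 1, 1, fun _ => H.one_mem, by ext w i; rfl⟩
  inv_mem' := by
    rintro a ⟨f, σ, hf, rfl⟩
    refine ⟨fun i => (f (σ i))⁻¹, σ⁻¹, fun i => H.inv_mem (hf _), ?_⟩
    ext w i
    rfl

theorem mem_Wr {H : Subgroup (Perm X)} {ι : Type v} {π : Perm (ι → X)} :
    π ∈ Wr H ι ↔ ∃ (f : ι → Perm X) (σ : Perm ι), (∀ i, f i ∈ H) ∧ π = wperm f σ := Iff.rfl

theorem wperm_mem {H : Subgroup (Perm X)} {ι : Type v} {f : ι → Perm X} {σ : Perm ι}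
    (hf : ∀ i, f i ∈ H) : wperm f σ ∈ Wr H ι := ⟨f, σ, hf, rfl⟩

/-- splitting of the index set -/
def splitE {ι ι1 ι2 : Type v} (ε : ι1 ⊕ ι2 ≃ ι) : (ι → X) ≃ (ι1 → X) × (ι2 → X) where
  toFun y := (fun i => y (ε (Sum.inl i)), fun j => y (ε (Sum.inr j)))
  invFun p := fun i => Sum.elim p.1 p.2 (ε.symm i)
  left_inv y := by
    ext i
    obtain ⟨s, rfl⟩ := ε.surjective i
    rcases s with s | s <;> simp
  right_inv p := by
    ext i <;> simp

theorem mem_fx_Wr_split {H : Subgroup (Perm X)} {ι ι1 ι2 : Type v} [Finite ι1] [Finite ι2]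
    (ε : ι1 ⊕ ι2 ≃ ι) (v : ι → X)
    (hsep : ∀ i j, v (ε (Sum.inr j)) ∉ orb H (v (ε (Sum.inl i)))) (π : Perm (ι → X)) :
    π ∈ fx (Wr H ι) v ↔ ∃ a ∈ fx (Wr H ι1) (fun i => v (ε (Sum.inl i))),
      ∃ b ∈ fx (Wr H ι2) (fun j => v (ε (Sum.inr j))),
      ∀ y, splitE ε (π y) = (a (splitE ε y).1, b (splitE ε y).2) := by
  constructor
  · rintro ⟨⟨f, σ, hf, rfl⟩, hfix⟩
    have hfix' : ∀ i, f i (v (σ.symm i)) = v i := fun i => congrFun hfix i
    set τ : Perm (ι1 ⊕ ι2) := (ε.trans σ.symm).trans ε.symm with hτ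
    have hτε : ∀ s, ε (τ s) = σ.symm (ε s) := by intro s; simp [hτ]
    have hmaps : Set.MapsTo τ (Set.range Sum.inl) (Set.range Sum.inl) := by
      rintro _ ⟨i, rfl⟩
      rcases h : τ (Sum.inl i) with j | j
      · exact ⟨j, rfl⟩
      · exfalso
        refine hsep i j ?_
        refine ⟨(f (ε (Sum.inl i)))⁻¹, H.inv_mem (hf _), ?_⟩
        rw [Perm.inv_eq_iff_eq]
        have := hfix' (ε (Sum.inl i))
        rw [← hτε, h] at this
        exact this.symm
    obtain ⟨⟨σ1, σ2⟩, h12⟩ := Perm.mem_sumCongrHom_range_of_perm_mapsTo_inl hmaps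
    have hl : ∀ i, τ (Sum.inl i) = Sum.inl (σ1 i) := by intro i; rw [← h12]; rfl
    have hr : ∀ i, τ (Sum.inr i) = Sum.inr (σ2 i) := by intro i; rw [← h12]; rfl
    have hl' : ∀ i, σ.symm (ε (Sum.inl i)) = ε (Sum.inl (σ1 i)) := by
      intro i; rw [← hτε, hl]
    have hr' : ∀ i, σ.symm (ε (Sum.inr i)) = ε (Sum.inr (σ2 i)) := by
      intro i; rw [← hτε, hr]
    refine ⟨wperm (fun i => f (ε (Sum.inl i))) σ1⁻¹, ⟨wperm_mem (fun i => hf _), ?_⟩,
      wperm (fun i => f (ε (Sum.inr i))) σ2⁻¹, ⟨wperm_mem (fun i => hf _), ?_⟩, ?_⟩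
    · ext i
      have := hfix' (ε (Sum.inl i))
      rw [hl'] at this
      exact this
    · ext i
      have := hfix' (ε (Sum.inr i))
      rw [hr'] at this
      exact this
    · intro y
      refine Prod.ext ?_ ?_
      · ext i
        change f (ε (Sum.inl i)) (y (σ.symm (ε (Sum.inl i)))) =
          f (ε (Sum.inl i)) (y (ε (Sum.inl (σ1 i))))
        rw [hl']
      · ext i
        change f (ε (Sum.inr i)) (y (σ.symm (ε (Sum.inr i)))) =
          f (ε (Sum.inr i)) (y (ε (Sum.inr (σ2 i))))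
        rw [hr']
  · rintro ⟨a, ⟨⟨f1, σ1, hf1, rfl⟩, hfix1⟩, b, ⟨⟨f2, σ2, hf2, rfl⟩, hfix2⟩, hab⟩
    have hπ : π = wperm (fun i => Sum.elim f1 f2 (ε.symm i))
        ((ε.symm.trans (Equiv.sumCongr σ1 σ2)).trans ε) := by
      ext y i
      have hy := hab y
      obtain ⟨s, rfl⟩ := ε.surjective i
      rcases s with s | s
      · have := congrFun (congrArg Prod.fst hy) s
        simpa [splitE] using this
      · have := congrFun (congrArg Prod.snd hy) s
        simpa [splitE] using this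
    refine ⟨?_, ?_⟩
    · rw [hπ]
      refine wperm_mem ?_
      intro i
      rcases h : ε.symm i with s | s
      · exact hf1 s
      · exact hf2 s
    · apply (splitE ε).injective
      rw [hab]
      refine Prod.ext hfix1 hfix2

/-- If the index set is a singleton, the wreath product is the group itself. -/
theorem mem_fx_Wr_unique {H : Subgroup (Perm X)} {ι : Type v} [Unique ι]
    (v : ι → X) (π : Perm (ι → X)) :
    π ∈ fx (Wr H ι) v ↔ ∃ a ∈ fx H (v default),
      ∃ b ∈ (⊤ : Subgroup (Perm Unit)),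
      ∀ y, ((Equiv.funUnique ι X).trans (Equiv.prodUnique X Unit).symm) (π y) =
        (a (((Equiv.funUnique ι X).trans (Equiv.prodUnique X Unit).symm) y).1,
         b (((Equiv.funUnique ι X).trans (Equiv.prodUnique X Unit).symm) y).2) := by
  constructor
  · rintro ⟨⟨f, σ, hf, rfl⟩, hfix⟩
    refine ⟨f default, ⟨hf _, ?_⟩, 1, Subgroup.mem_top _, ?_⟩
    · have := congrFun hfix default
      simp only [wperm_apply] at this
      rwa [Subsingleton.elim (σ.symm default) default] at this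
    · intro y
      refine Prod.ext ?_ (Subsingleton.elim _ _)
      change f default (y (σ.symm default)) = f default (y default)
      rw [Subsingleton.elim (σ.symm default) default]
  · rintro ⟨a, ⟨ha, hav⟩, b, -, hab⟩
    have hπ : π = wperm (fun _ => a) 1 := by
      ext y i
      have := congrArg Prod.fst (hab y)
      rw [Subsingleton.elim i default]
      exact this
    refine ⟨?_, ?_⟩
    · rw [hπ]; exact wperm_mem fun _ => ha
    · rw [hπ]
      ext i
      rw [Subsingleton.elim i default]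
      exact hav

end Wr

end Pool.Agent.helper17.GB
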